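import Pool.Agent.W463.H10.Terms
import Pool.Agent.H528R3.FD.Main

/-!
# `NP`-hardness of the solvability over `ℚ` of equations in a fixed number of variables
-/

set_option autoImplicit false

namespace Pool.Agent.W463.H10

open Pool.Agent.NPC Pool.Agent.H528R3.FD

/-- transfer of hardness from the problem of `H528R3.FD.main` -/
theorem hard_of {Q : List (ℤ × List ℕ) → Prop} {F : ℤ × List ℤ → List (ℤ × List ℕ)}
    (hF : NPC.Poly F) (h : ∀ p : ℤ × List ℤ, p.2.length = 9 → (Solv p.1 p.2 ↔ Q (F p))) :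
    NPHardP Q := by
  have h1 := H692R2.hardPr_col3.trans (Pr' := fun p : ℤ × List ℤ => p.2.length = 9)
    (Q := fun p : ℤ × List ℤ => p.2.length = 9 ∧ Solv p.1 p.2)
    (poly_NN_FF_of poly_zz poly_redE upoly_sum) (fun _ _ => length_FF _) (fun E hE => by
      rw [redE_col hE, ← solv_iff (redE_good hE)]
      exact ⟨fun h => ⟨length_FF _, h⟩, fun h => h.2⟩)
  have h2 := h1.trans (Pr' := fun _ => True) (Q := Q) hF (fun _ _ => trivial) (fun p hp => by
    rw [← h p hp]; exact ⟨fun h => h.2, fun h => ⟨hp, h⟩⟩)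
  exact h2.toHardI.toNPHardP

/-! ### five variables -/

/-- `y ^ 2 - x ^ 3 + 2 x ^ 2 - 65 x`, with `x = x 0`, `y = x 1` -/
def eE : List (ℤ × List ℕ) := [(1, [1, 1]), (-1, [0, 0, 0]), (2, [0, 0]), (-65, [0])]

/-- the polynomial with the list of coefficients `f` -/
def pF (f : List ℤ) : List (ℤ × List ℕ) :=
  [(f.getD 0 0, []), (f.getD 1 0, [0]), (f.getD 2 0, [0, 0]), (f.getD 3 0, [0, 0, 0]),
    (f.getD 4 0, [0, 0, 0, 0]), (f.getD 5 0, [0, 0, 0, 0, 0]), (f.getD 6 0, [0, 0, 0, 0, 0, 0]),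
    (f.getD 7 0, [0, 0, 0, 0, 0, 0, 0]), (f.getD 8 0, [0, 0, 0, 0, 0, 0, 0, 0])]

/-- `a ^ 2 - 2 b ^ 2 + 2 N w ^ 2 - N ^ 2 - N f(x) ^ 2` with `a = x 2`, `b = x 3`, `w = x 4` -/
def eN (N : ℤ) (f : List ℤ) : List (ℤ × List ℕ) :=
  [(1, [2, 2]), (-2, [3, 3]), (2 * N, [4, 4]), (-(N * N), [])] ++
    mulT [(-N, [])] (mulT (pF f) (pF f))

def five (p : ℤ × List ℤ) : List (ℤ × List ℕ) := sqs [eE, eN p.1 p.2]

theorem value_pF (f : List ℤ) (x : ℕ → ℚ) :
    value x (pF f) = ∑ i ∈ Finset.range 9, ((f.getD i 0 : ℤ) : ℚ) * x 0 ^ i := by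
  unfold pF value
  simp only [List.map_cons, List.map_nil, List.sum_cons, List.sum_nil, List.prod_cons,
    List.prod_nil, Finset.sum_range_succ, Finset.sum_range_zero]
  ring

theorem value_eN (N : ℤ) (f : List ℤ) (x : ℕ → ℚ) :
    value x (eN N f) = x 2 ^ 2 - 2 * x 3 ^ 2 + 2 * N * x 4 ^ 2 -
      (N ^ 2 + N * (∑ i ∈ Finset.range 9, ((f.getD i 0 : ℤ) : ℚ) * x 0 ^ i) ^ 2) := by
  unfold eN
  rw [value_append, value_mulT, value_mulT, value_pF]
  simp only [value, List.map_cons, List.map_nil, List.sum_cons, List.sum_nil, List.prod_cons,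
    List.prod_nil]
  push_cast
  ring

theorem value_eE (x : ℕ → ℚ) :
    value x eE = x 1 ^ 2 - (x 0 ^ 3 - 2 * x 0 ^ 2 + 65 * x 0) := by
  unfold eE
  simp only [value, List.map_cons, List.map_nil, List.sum_cons, List.sum_nil, List.prod_cons,
    List.prod_nil]
  push_cast
  ring

theorem five_iff (p : ℤ × List ℤ) : Solv p.1 p.2 ↔ RatZero (five p) := by
  constructor
  · rintro ⟨x, y, a, b, w, h1, h2⟩
    refine ⟨fun i => if i = 0 then x else if i = 1 then y else if i = 2 then a else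
      if i = 3 then b else w, ?_⟩
    unfold five
    rw [value_sqs]
    intro q hq
    simp only [List.mem_cons, List.not_mem_nil, or_false] at hq
    rcases hq with rfl | rfl
    · rw [value_eE]; simp only [if_true, one_ne_zero, if_false]; rw [h1]; ring
    · rw [value_eN]
      simp only [if_true, if_false, OfNat.ofNat_ne_zero, OfNat.ofNat_ne_one,
        Nat.reduceEqDiff]
      linarith
  · rintro ⟨v, hv⟩
    unfold five at hv
    rw [value_sqs] at hv
    have h1 := hv eE (by simp)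
    have h2 := hv (eN p.1 p.2) (by simp)
    rw [value_eE] at h1
    rw [value_eN] at h2
    exact ⟨v 0, v 1, v 2, v 3, v 4, by linarith, by linarith⟩

theorem bd_five (p : ℤ × List ℤ) : Bd 32 5 (five p) := by
  unfold five
  refine Bd.sqs (d := 16) ?_ le_rfl
  have hE : Bd 16 5 eE := by
    intro t ht
    simp only [eE, List.mem_cons, List.not_mem_nil, or_false] at ht
    rcases ht with rfl | rfl | rfl | rfl <;> simp
  have hF : Bd 8 5 (pF p.2) := by
    intro t ht
    simp only [pF, List.mem_cons, List.not_mem_nil, or_false] at ht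
    rcases ht with rfl | rfl | rfl | rfl | rfl | rfl | rfl | rfl | rfl <;> simp
  have hN : Bd 0 5 [(-p.1, ([] : List ℕ))] := by
    intro t ht
    rw [List.mem_singleton] at ht
    subst ht; simp
  intro q hq
  simp only [List.mem_cons, List.not_mem_nil, or_false] at hq
  rcases hq with rfl | rfl
  · exact hE
  · refine Bd.append ?_ (Bd.mulT hN (Bd.mulT hF hF (m := 16) (by norm_num)) (by norm_num))
    intro t ht
    simp only [List.mem_cons, List.not_mem_nil, or_false] at ht
    rcases ht with rfl | rfl | rfl | rfl <;> simp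

/-! ### nine variables -/

/-- variables: `x 0 = x`, `x 1 = y`, `x 2 = a`, `x 3 = b`, `x 4 = w`, `x 5 = x ^ 2`,
`x 6 = x ^ 3`, `x 7 = x ^ 4`, `x 8 = f(x)` -/
def nineL (p : ℤ × List ℤ) : List (List (ℤ × List ℕ)) :=
  [[(1, [5]), (-1, [0, 0])],
   [(1, [6]), (-1, [0, 5])],
   [(1, [7]), (-1, [5, 5])],
   [(1, [1, 1]), (-1, [6]), (2, [5]), (-65, [0])],
   [(-1, [8]), (p.2.getD 0 0, []), (p.2.getD 1 0, [0]), (p.2.getD 2 0, [5]), (p.2.getD 3 0, [6]),
    (p.2.getD 4 0, [7]), (p.2.getD 5 0, [0, 7]), (p.2.getD 6 0, [5, 7]), (p.2.getD 7 0, [6, 7]),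
    (p.2.getD 8 0, [7, 7])],
   [(1, [2, 2]), (-2, [3, 3]), (2 * p.1, [4, 4]), (-(p.1 * p.1), []), (-p.1, [8, 8])]]

def nine (p : ℤ × List ℤ) : List (ℤ × List ℕ) := sqs (nineL p)

theorem nine_iff (p : ℤ × List ℤ) : Solv p.1 p.2 ↔ RatZero (nine p) := by
  constructor
  · rintro ⟨x, y, a, b, w, h1, h2⟩
    set F : ℚ := ∑ i ∈ Finset.range 9, ((p.2.getD i 0 : ℤ) : ℚ) * x ^ i with hF
    refine ⟨fun i => if i = 0 then x else if i = 1 then y else if i = 2 then a else
      if i = 3 then b else if i = 4 then w else if i = 5 then x ^ 2 else if i = 6 then x ^ 3 else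
      if i = 7 then x ^ 4 else F, ?_⟩
    unfold nine
    rw [value_sqs]
    intro q hq
    simp only [nineL, List.mem_cons, List.not_mem_nil, or_false] at hq
    rcases hq with rfl | rfl | rfl | rfl | rfl | rfl
    · simp [value]; ring
    · simp [value]; ring
    · simp [value]; ring
    · simp only [value, List.map_cons, List.map_nil, List.sum_cons, List.sum_nil, List.prod_cons,
        List.prod_nil]
      norm_num
      linarith
    · simp only [value, List.map_cons, List.map_nil, List.sum_cons, List.sum_nil, List.prod_cons,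
        List.prod_nil, if_true, if_false, OfNat.ofNat_ne_zero, OfNat.ofNat_ne_one,
        Nat.reduceEqDiff]
      rw [hF]
      simp only [Finset.sum_range_succ, Finset.sum_range_zero]
      push_cast
      ring
    · simp only [value, List.map_cons, List.map_nil, List.sum_cons, List.sum_nil, List.prod_cons,
        List.prod_nil]
      norm_num
      linarith
  · rintro ⟨v, hv⟩
    unfold nine at hv
    rw [value_sqs] at hv
    simp only [nineL, List.forall_mem_cons, List.not_mem_nil, false_imp_iff, implies_true,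
      and_true] at hv
    obtain ⟨h1, h2, h3, h4, h5, h6⟩ := hv
    simp only [value, List.map_cons, List.map_nil, List.sum_cons, List.sum_nil, List.prod_cons,
      List.prod_nil] at h1 h2 h3 h4 h5 h6
    push_cast at h1 h2 h3 h4 h5 h6
    have e5 : v 5 = v 0 ^ 2 := by linarith
    have e6 : v 6 = v 0 ^ 3 := by rw [e5] at h2; linarith
    have e7 : v 7 = v 0 ^ 4 := by rw [e5] at h3; linarith
    rw [e5, e6] at h4
    rw [e5, e6, e7] at h5
    have e8 : v 8 = ∑ i ∈ Finset.range 9, ((p.2.getD i 0 : ℤ) : ℚ) * v 0 ^ i := by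
      simp only [Finset.sum_range_succ, Finset.sum_range_zero]
      linarith
    refine ⟨v 0, v 1, v 2, v 3, v 4, by linarith, ?_⟩
    rw [← e8]
    linarith

theorem bd_nine (p : ℤ × List ℤ) : Bd 4 9 (nine p) := by
  refine Bd.sqs (d := 2) ?_ le_rfl
  intro q hq
  simp only [nineL, List.mem_cons, List.not_mem_nil, or_false] at hq
  rcases hq with rfl | rfl | rfl | rfl | rfl | rfl <;> intro t ht <;>
    simp only [List.mem_cons, List.not_mem_nil, or_false] at ht
  · rcases ht with rfl | rfl <;> simp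
  · rcases ht with rfl | rfl <;> simp
  · rcases ht with rfl | rfl <;> simp
  · rcases ht with rfl | rfl | rfl | rfl <;> simp
  · rcases ht with rfl | rfl | rfl | rfl | rfl | rfl | rfl | rfl | rfl | rfl <;> simp
  · rcases ht with rfl | rfl | rfl | rfl | rfl <;> simp

/-! ### both reductions are computable in polynomial time -/

theorem pc {β : Type} [TEnc β] (b : β) : NPC.Poly (fun _ : ℤ × List ℤ => b) := NPC.Poly.const b

theorem pN : NPC.Poly (fun p : ℤ × List ℤ => p.1) := NPC.Poly.fst NPC.Poly.id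

theorem pG (i : ℕ) : NPC.Poly (fun p : ℤ × List ℤ => p.2.getD i 0) :=
  NPC.Poly.getD (NPC.Poly.snd NPC.Poly.id) (NPC.Poly.const i) (NPC.Poly.const 0)

theorem poly_five : NPC.Poly five := by
  have hF : NPC.Poly (fun p : ℤ × List ℤ => pF p.2) :=
    .cons (.pair (pG 0) (pc _)) (.cons (.pair (pG 1) (pc _)) (.cons (.pair (pG 2) (pc _))
      (.cons (.pair (pG 3) (pc _)) (.cons (.pair (pG 4) (pc _)) (.cons (.pair (pG 5) (pc _))
      (.cons (.pair (pG 6) (pc _)) (.cons (.pair (pG 7) (pc _)) (.cons (.pair (pG 8) (pc _))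
      (pc _)))))))))
  have hm : NPC.Poly (fun p : ℤ × List ℤ => -p.1) := NPC.Poly.ineg pN
  have h2 : NPC.Poly (fun p : ℤ × List ℤ => 2 * p.1) := NPC.Poly.imul (pc 2) pN
  have hs : NPC.Poly (fun p : ℤ × List ℤ => -(p.1 * p.1)) :=
    NPC.Poly.ineg (NPC.Poly.imul pN pN)
  have hN : NPC.Poly (fun p : ℤ × List ℤ => eN p.1 p.2) :=
    .append (.cons (pc _) (.cons (pc _) (.cons (.pair h2 (pc _)) (.cons (.pair hs (pc _))
      (pc _))))) (poly_mulT (.cons (.pair hm (pc _)) (pc _)) (poly_mulT hF hF))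
  exact poly_sqs (.cons (pc _) (.cons hN (pc _)))

theorem poly_nine : NPC.Poly nine := by
  have hm : NPC.Poly (fun p : ℤ × List ℤ => -p.1) := NPC.Poly.ineg pN
  have h2 : NPC.Poly (fun p : ℤ × List ℤ => 2 * p.1) := NPC.Poly.imul (pc 2) pN
  have hs : NPC.Poly (fun p : ℤ × List ℤ => -(p.1 * p.1)) :=
    NPC.Poly.ineg (NPC.Poly.imul pN pN)
  have h5 : NPC.Poly (fun p : ℤ × List ℤ =>
      [((-1 : ℤ), [8]), (p.2.getD 0 0, []), (p.2.getD 1 0, [0]), (p.2.getD 2 0, [5]),
        (p.2.getD 3 0, [6]), (p.2.getD 4 0, [7]), (p.2.getD 5 0, [0, 7]), (p.2.getD 6 0, [5, 7]),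
        (p.2.getD 7 0, [6, 7]), (p.2.getD 8 0, [7, 7])]) :=
    .cons (pc _) (.cons (.pair (pG 0) (pc _)) (.cons (.pair (pG 1) (pc _))
      (.cons (.pair (pG 2) (pc _)) (.cons (.pair (pG 3) (pc _)) (.cons (.pair (pG 4) (pc _))
      (.cons (.pair (pG 5) (pc _)) (.cons (.pair (pG 6) (pc _)) (.cons (.pair (pG 7) (pc _))
      (.cons (.pair (pG 8) (pc _)) (pc _))))))))))
  have h6 : NPC.Poly (fun p : ℤ × List ℤ =>
      [((1 : ℤ), [2, 2]), (-2, [3, 3]), (2 * p.1, [4, 4]), (-(p.1 * p.1), []), (-p.1, [8, 8])]) :=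
    .cons (pc _) (.cons (pc _) (.cons (.pair h2 (pc _)) (.cons (.pair hs (pc _))
      (.cons (.pair hm (pc _)) (pc _)))))
  refine poly_sqs ?_
  exact .cons (pc _) (.cons (pc _) (.cons (pc _) (.cons (pc _) (.cons h5 (.cons h6 (pc _))))))

/-- rational solvability is `NP`-hard already for equations of degree `4` in `9` variables -/
theorem hard_nine : NPHardP (fun p : List (ℤ × List ℕ) => Bd 4 9 p ∧ RatZero p) :=
  hard_of poly_nine fun p _ => by
    rw [nine_iff]; exact ⟨fun h => ⟨bd_nine p, h⟩, fun h => h.2⟩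

/-- rational solvability is `NP`-hard already for equations of degree `32` in `5` variables -/
theorem hard_five : NPHardP (fun p : List (ℤ × List ℕ) => Bd 32 5 p ∧ RatZero p) :=
  hard_of poly_five fun p _ => by
    rw [five_iff]; exact ⟨fun h => ⟨bd_five p, h⟩, fun h => h.2⟩

end Pool.Agent.W463.H10
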