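import Pool.Agent.W463.H10.Terms
import Pool.Agent.H528R2.Main

/-!
# `NEXP`-hardness of the solvability over `ℚ` of one quartic equation, given by its terms
-/

set_option autoImplicit false

namespace Pool.Agent.W463.H10

open Pool.Agent.NPC Pool.Agent.H528R2

/-- difference of the two sides of a constraint -/
def conT : ER.Con → List (ℤ × List ℕ)
  | .one i => [(1, [i]), (-1, [])]
  | .add i j k => [(1, [i]), (1, [j]), (-1, [k])]
  | .mul i j k => [(1, [i, j]), (-1, [k])]

theorem value_conT (x : ℕ → ℚ) (c : ER.Con) : value x (conT c) = 0 ↔ HoldsQ x c := by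
  cases c with
  | one i => simp only [value, conT, HoldsQ]; simp; constructor <;> intro h <;> linarith
  | add i j k => simp only [value, conT, HoldsQ]; simp; constructor <;> intro h <;> linarith
  | mul i j k => simp only [value, conT, HoldsQ]; simp; constructor <;> intro h <;> linarith

theorem length_conT {c : ER.Con} {t : ℤ × List ℕ} (h : t ∈ conT c) : t.2.length ≤ 2 := by
  cases c with
  | one i =>
    simp only [conT, List.mem_cons, List.not_mem_nil, or_false] at h
    rcases h with h | h <;> rw [h] <;> simp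
  | add i j k =>
    simp only [conT, List.mem_cons, List.not_mem_nil, or_false] at h
    rcases h with h | h | h <;> rw [h] <;> simp
  | mul i j k =>
    simp only [conT, List.mem_cons, List.not_mem_nil, or_false] at h
    rcases h with h | h <;> rw [h] <;> simp

/-- the quartic attached to a system of constraints -/
def quartT (S : List ER.Con) : List (ℤ × List ℕ) := sqs (S.map conT)

theorem ratZero_quartT (S : List ER.Con) : RatZero (quartT S) ↔ QSat S := by
  refine exists_congr fun x => ?_
  rw [quartT, value_sqs]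
  simp only [List.mem_map, forall_exists_index, and_imp, forall_apply_eq_imp_iff₂, value_conT]

theorem length_quartT {S : List ER.Con} {t : ℤ × List ℕ} (h : t ∈ quartT S) :
    t.2.length ≤ 4 := by
  unfold quartT sqs mulT at h
  obtain ⟨p, hp, ht⟩ := List.mem_flatMap.1 h
  obtain ⟨c, _, rfl⟩ := List.mem_map.1 hp
  obtain ⟨s, hs, ht⟩ := List.mem_flatMap.1 ht
  obtain ⟨u, hu, rfl⟩ := List.mem_map.1 ht
  have h1 := length_conT hs
  have h2 := length_conT hu
  simp only [List.length_append]
  omega

theorem conT_eq (c : ER.Con) : conT c =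
    if c.code.1 = 0 then [(1, [c.code.2.1]), (-1, [])]
    else if c.code.1 = 1 then [(1, [c.code.2.1]), (1, [c.code.2.2.1]), (-1, [c.code.2.2.2])]
    else [(1, [c.code.2.1, c.code.2.2.1]), (-1, [c.code.2.2.2])] := by
  cases c <;> rfl

section

variable {α : Type} [TEnc α]

theorem poly_conT {c : α → ER.Con} (hc : NPC.Poly c) : NPC.Poly (fun a => conT (c a)) := by
  have h0 : NPC.Poly (fun a => (c a).code) := hc
  have h1 : NPC.Poly (fun a => (c a).code.1) := NPC.Poly.fst h0
  have h2 : NPC.Poly (fun a => (c a).code.2.1) := NPC.Poly.fst (NPC.Poly.snd h0)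
  have h3 : NPC.Poly (fun a => (c a).code.2.2.1) := NPC.Poly.fst (NPC.Poly.snd (NPC.Poly.snd h0))
  have h4 : NPC.Poly (fun a => (c a).code.2.2.2) := NPC.Poly.snd (NPC.Poly.snd (NPC.Poly.snd h0))
  have hn : NPC.Poly (fun _ : α => ([] : List ℕ)) := NPC.Poly.const _
  have hN : NPC.Poly (fun _ : α => ([] : List (ℤ × List ℕ))) := NPC.Poly.const _
  have p1 : NPC.Poly (fun _ : α => (1 : ℤ)) := NPC.Poly.const _
  have m1 : NPC.Poly (fun _ : α => (-1 : ℤ)) := NPC.Poly.const _
  refine (NPC.Poly.ite (NPC.Poly.decide_eq h1 (NPC.Poly.const 0)) ?_ (NPC.Poly.ite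
    (NPC.Poly.decide_eq h1 (NPC.Poly.const 1)) ?_ ?_)).congr fun a => (conT_eq (c a)).symm
  · exact .cons (.pair p1 (.cons h2 hn)) (.cons (.pair m1 hn) hN)
  · exact .cons (.pair p1 (.cons h2 hn)) (.cons (.pair p1 (.cons h3 hn))
      (.cons (.pair m1 (.cons h4 hn)) hN))
  · exact .cons (.pair p1 (.cons h2 (.cons h3 hn))) (.cons (.pair m1 (.cons h4 hn)) hN)

end

theorem poly_quartT : NPC.Poly quartT := by
  refine poly_sqs (NPC.Poly.map (F := fun _ c => conT c) NPC.Poly.id ?_)
  exact poly_conT (NPC.Poly.snd NPC.Poly.id)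

/-- every language in `NEXP` reduces in polynomial time to rational solvability of quartics -/
theorem nexp_quartic (L : Set (List Bool)) (hL : InNEXP L) :
    ∃ f : List Bool → List (ℤ × List ℕ), PolyTime (fun w => bits (f w)) ∧
      (∀ w, ∀ t ∈ f w, t.2.length ≤ 4) ∧ ∀ w, w ∈ L ↔ RatZero (f w) := by
  obtain ⟨f, hf, hfL⟩ := hardX_QSat L hL
  refine ⟨fun w => quartT (f w), ?_, fun w t ht => length_quartT ht,
    fun w => (hfL w).trans (ratZero_quartT _).symm⟩
  have h1 : PC (fun x : List Bool => x) (bits : List (ℤ × List ℕ) → List Bool)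
      (fun w => quartT (f w)) :=
    PC.comp (eb := (bits : List ER.Con → List Bool)) (g := quartT) (f := f) poly_quartT hf
  exact PC.toPolyTime h1

theorem hardX_quartic :
    HardX (fun p : List (ℤ × List ℕ) => (∀ t ∈ p, t.2.length ≤ 4) ∧ RatZero p) := by
  refine hardX_QSat.trans (f := quartT) poly_quartT fun S => ?_
  rw [ratZero_quartT]
  exact ⟨fun h => ⟨fun t ht => length_quartT ht, h⟩, fun h => h.2⟩

end Pool.Agent.W463.H10
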