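import Pool.Agent.H687R2.IntPoly

/-!
# Polynomials with integer coefficients, given by the lists of their terms
-/

set_option autoImplicit false

namespace Pool.Agent.W463.H10

open Pool.Agent.NPC

/-- The value at `x` of the polynomial with the list of terms `p`: the pair `(c, [i₁, …, i_k])`
stands for the term `c * x i₁ * ⋯ * x i_k`. -/
def value (x : ℕ → ℚ) (p : List (ℤ × List ℕ)) : ℚ :=
  (p.map fun t => (t.1 : ℚ) * (t.2.map x).prod).sum

/-- The polynomial with the list of terms `p` has a zero all of whose coordinates are rational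
numbers. -/
def RatZero (p : List (ℤ × List ℕ)) : Prop := ∃ x : ℕ → ℚ, value x p = 0

/-- product of two polynomials -/
def mulT (p q : List (ℤ × List ℕ)) : List (ℤ × List ℕ) :=
  p.flatMap fun s => q.map fun t => (s.1 * t.1, s.2 ++ t.2)

/-- all terms have degree at most `d` and only variables with index below `n` occur -/
def Bd (d n : ℕ) (p : List (ℤ × List ℕ)) : Prop :=
  ∀ t ∈ p, t.2.length ≤ d ∧ ∀ i ∈ t.2, i < n

theorem value_nil (x : ℕ → ℚ) : value x [] = 0 := rfl

theorem value_cons (x : ℕ → ℚ) (t : ℤ × List ℕ) (p : List (ℤ × List ℕ)) :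
    value x (t :: p) = (t.1 : ℚ) * (t.2.map x).prod + value x p := by
  simp [value]

theorem value_append (x : ℕ → ℚ) (p q : List (ℤ × List ℕ)) :
    value x (p ++ q) = value x p + value x q := by
  simp [value]

theorem value_mul_aux (x : ℕ → ℚ) (s : ℤ × List ℕ) (q : List (ℤ × List ℕ)) :
    value x (q.map fun t => (s.1 * t.1, s.2 ++ t.2)) = (s.1 : ℚ) * (s.2.map x).prod * value x q := by
  induction q with
  | nil => simp [value]
  | cons t q ih =>
    rw [List.map_cons, value_cons, ih, value_cons]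
    simp only [List.map_append, List.prod_append]
    push_cast
    ring

theorem value_mulT (x : ℕ → ℚ) (p q : List (ℤ × List ℕ)) :
    value x (mulT p q) = value x p * value x q := by
  induction p with
  | nil => simp [value, mulT]
  | cons s p ih =>
    have : mulT (s :: p) q = (q.map fun t => (s.1 * t.1, s.2 ++ t.2)) ++ mulT p q := rfl
    rw [this, value_append, ih, value_mul_aux, value_cons]
    ring

theorem Bd.append {d n : ℕ} {p q : List (ℤ × List ℕ)} (hp : Bd d n p) (hq : Bd d n q) :
    Bd d n (p ++ q) := by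
  intro t ht
  rcases List.mem_append.1 ht with h | h
  · exact hp t h
  · exact hq t h

theorem Bd.mulT {d e m n : ℕ} {p q : List (ℤ × List ℕ)} (hp : Bd d n p) (hq : Bd e n q)
    (h : d + e ≤ m) : Bd m n (mulT p q) := by
  intro t ht
  unfold H10.mulT at ht
  obtain ⟨s, hs, ht⟩ := List.mem_flatMap.1 ht
  obtain ⟨u, hu, rfl⟩ := List.mem_map.1 ht
  obtain ⟨a1, a2⟩ := hp s hs
  obtain ⟨b1, b2⟩ := hq u hu
  refine ⟨by simp only [List.length_append]; omega, fun i hi => ?_⟩
  rcases List.mem_append.1 hi with h | h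
  · exact a2 i h
  · exact b2 i h

theorem Bd.mono {d e m n : ℕ} {p : List (ℤ × List ℕ)} (hp : Bd d m p) (h : d ≤ e) (h' : m ≤ n) :
    Bd e n p := fun t ht => ⟨(hp t ht).1.trans h, fun i hi => ((hp t ht).2 i hi).trans_le h'⟩

theorem sumsq {a b : ℚ} : a * a + b * b = 0 ↔ a = 0 ∧ b = 0 := by
  constructor
  · intro h
    have h1 := mul_self_nonneg a
    have h2 := mul_self_nonneg b
    exact ⟨mul_self_eq_zero.1 (by linarith), mul_self_eq_zero.1 (by linarith)⟩
  · rintro ⟨rfl, rfl⟩; ring

/-- the sum of the squares of a list of polynomials -/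
def sqs (l : List (List (ℤ × List ℕ))) : List (ℤ × List ℕ) := l.flatMap fun p => mulT p p

theorem value_sqs_nonneg (x : ℕ → ℚ) (l : List (List (ℤ × List ℕ))) : 0 ≤ value x (sqs l) := by
  induction l with
  | nil => simp [sqs, value]
  | cons p l ih =>
    have : sqs (p :: l) = mulT p p ++ sqs l := rfl
    rw [this, value_append, value_mulT]
    have := mul_self_nonneg (value x p)
    linarith

theorem value_sqs (x : ℕ → ℚ) (l : List (List (ℤ × List ℕ))) :
    value x (sqs l) = 0 ↔ ∀ p ∈ l, value x p = 0 := by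
  induction l with
  | nil => simp [sqs, value]
  | cons p l ih =>
    have e : sqs (p :: l) = mulT p p ++ sqs l := rfl
    rw [e, value_append, value_mulT, List.forall_mem_cons, ← ih]
    have h1 := mul_self_nonneg (value x p)
    have h2 := value_sqs_nonneg x l
    constructor
    · intro h
      exact ⟨mul_self_eq_zero.1 (by linarith), by linarith⟩
    · rintro ⟨h3, h4⟩
      rw [h3, h4]; ring

theorem Bd.sqs {d m n : ℕ} {l : List (List (ℤ × List ℕ))} (h : ∀ p ∈ l, Bd d n p)
    (hm : d + d ≤ m) : Bd m n (sqs l) := by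
  intro t ht
  unfold H10.sqs at ht
  obtain ⟨p, hp, ht⟩ := List.mem_flatMap.1 ht
  exact Bd.mulT (h p hp) (h p hp) hm t ht

section

variable {α : Type} [TEnc α]

theorem poly_mulT {p q : α → List (ℤ × List ℕ)} (hp : NPC.Poly p) (hq : NPC.Poly q) :
    NPC.Poly (fun a => mulT (p a) (q a)) := by
  unfold mulT
  refine NPC.Poly.flatMap hp ?_
  refine NPC.Poly.map (hq.comp (NPC.Poly.fst NPC.Poly.id)) ?_
  have h1 : NPC.Poly (fun r : (α × (ℤ × List ℕ)) × (ℤ × List ℕ) => r.1.2) :=
    NPC.Poly.snd (NPC.Poly.fst NPC.Poly.id)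
  have h2 : NPC.Poly (fun r : (α × (ℤ × List ℕ)) × (ℤ × List ℕ) => r.2) := NPC.Poly.snd NPC.Poly.id
  exact NPC.Poly.pair (NPC.Poly.imul (NPC.Poly.fst h1) (NPC.Poly.fst h2)) (NPC.Poly.append (NPC.Poly.snd h1) (NPC.Poly.snd h2))

theorem poly_sqs {l : α → List (List (ℤ × List ℕ))} (hl : NPC.Poly l) :
    NPC.Poly (fun a => sqs (l a)) := by
  unfold sqs
  refine NPC.Poly.flatMap hl ?_
  exact poly_mulT (NPC.Poly.snd NPC.Poly.id) (NPC.Poly.snd NPC.Poly.id)

end

end Pool.Agent.W463.H10
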